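import Pool.Agent.Q80.KT.Stm

/-!
# Project KT (helper80), job KT-CONF: probability of a prescribed configuration
-/

set_option autoImplicit false

open Finset
open scoped Classical

namespace Pool.Agent.Q153.KT.CONF

open Pool.Agent.Q80.KT Pool.Agent.Q287.SR

theorem t_CONF : S_CONF := by
  intro n p D g hD
  unfold Pr Ex
  have h1 : ∀ G : SimpleGraph (Fin n), erWeight n p G * ind (∀ e ∈ D, (e ∈ G.edgeSet ↔ e ∈ g.edgeSet)) =
      ∏ e ∈ pairs n, (if e ∈ G.edgeSet then (if e ∈ D ∧ e ∉ g.edgeSet then (0 : ℝ) else p)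
        else (if e ∈ D ∧ e ∈ g.edgeSet then (0 : ℝ) else 1 - p)) := by
    intro G
    unfold erWeight ind
    by_cases h : ∀ e ∈ D, (e ∈ G.edgeSet ↔ e ∈ g.edgeSet)
    · rw [if_pos h, mul_one]
      refine Finset.prod_congr rfl fun e he => ?_
      by_cases hG : e ∈ G.edgeSet
      · rw [if_pos hG, if_pos hG, if_neg]
        rintro ⟨h1, h2⟩
        exact h2 ((h e h1).1 hG)
      · rw [if_neg hG, if_neg hG, if_neg]
        rintro ⟨h1, h2⟩
        exact hG ((h e h1).2 h2)
    · rw [if_neg h, mul_zero]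
      have h' : ∃ e ∈ D, ¬ (e ∈ G.edgeSet ↔ e ∈ g.edgeSet) := by
        by_contra hc
        exact h fun e he => by_contra fun hne => hc ⟨e, he, hne⟩
      obtain ⟨e, he, hne⟩ := h'
      symm
      apply Finset.prod_eq_zero (hD he)
      by_cases hG : e ∈ G.edgeSet
      · rw [if_pos hG, if_pos ⟨he, fun h2 => hne (iff_of_true hG h2)⟩]
      · rw [if_neg hG, if_pos ⟨he, by_contra fun h2 => hne (iff_of_false hG h2)⟩]
  rw [Finset.sum_congr rfl fun G _ => h1 G, sum_graph_prod]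
  have h2 : ∏ e ∈ D, (if e ∈ g.edgeSet then p else 1 - p) = ∏ e ∈ pairs n,
      ((if e ∈ D ∧ e ∉ g.edgeSet then (0 : ℝ) else p) + (if e ∈ D ∧ e ∈ g.edgeSet then (0 : ℝ) else 1 - p)) := by
    rw [← Finset.prod_subset hD (f := fun e => (if e ∈ D ∧ e ∉ g.edgeSet then (0 : ℝ) else p) +
      (if e ∈ D ∧ e ∈ g.edgeSet then (0 : ℝ) else 1 - p))]
    · refine Finset.prod_congr rfl fun e he => ?_
      by_cases hg : e ∈ g.edgeSet
      · rw [if_pos hg, if_neg (fun h => h.2 hg), if_pos ⟨he, hg⟩, add_zero]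
      · rw [if_neg hg, if_pos ⟨he, hg⟩, if_neg (fun h => hg h.2), zero_add]
    · intro e _ he
      rw [if_neg (fun h => he h.1), if_neg (fun h => he h.1)]
      ring
  rw [← h2, Finset.prod_ite, Finset.prod_const, Finset.prod_const]

end Pool.Agent.Q153.KT.CONF
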