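import Pool.Agent.Q234.KT.Stm

/-!
# Project KT (helper234), job KT-LO: a PEPS from a model with local states
-/

set_option autoImplicit false

open scoped BigOperators
open Finset Pool.Agent.TH235.PP

namespace Pool.Agent.Q153.KT.LO

open Pool.Agent.Q234.KT

/-- labels of the elements of a small finite set -/
theorem exists_label {K : Type} [DecidableEq K] {D : ℕ} (S : Finset K) (hS : S.card ≤ D) :
    ∃ c : K → Option (Fin D), (∀ k ∈ S, ∃ i, c k = some i) ∧
      ∀ k ∈ S, ∀ k', c k' = c k → k' = k := by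
  have h1 : Fintype.card S ≤ Fintype.card (Fin D) := by
    rw [Fintype.card_coe, Fintype.card_fin]
    exact hS
  obtain ⟨e⟩ := Function.Embedding.nonempty_of_card_le h1
  refine ⟨fun k => if h : k ∈ S then some (e ⟨k, h⟩) else none, fun k hk => ⟨e ⟨k, hk⟩, ?_⟩, ?_⟩
  · simp only [dif_pos hk]
  · intro k hk k' h
    simp only [dif_pos hk] at h
    by_cases hk' : k' ∈ S
    · rw [dif_pos hk'] at h
      have h2 := e.injective (Option.some.inj h)
      exact congrArg Subtype.val h2
    · rw [dif_neg hk'] at h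
      exact absurd h (by simp)

theorem main : LocS := by
  intro L _ Q K _ _ _ D W lf rt dn up Sh Sv hSh hSv hrt hup
  choose c hc1 hc2 using fun x => exists_label (D := D) (Sh x) (hSh x)
  choose c' hc1' hc2' using fun x => exists_label (D := D) (Sv x) (hSv x)
  refine ⟨fun x a l r d u => ∑ q : Q,
    if c (x.1 - 1, x.2) (lf x q) = some l ∧ c x (rt x q) = some r ∧
      c' (x.1, x.2 - 1) (dn x q) = some d ∧ c' x (up x q) = some u then W x a q else 0, ?_⟩
  funext σ
  unfold contract
  -- expand the products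
  have h1 : ∀ (h v : Site L → Fin D), (∏ x : Site L, ∑ q : Q,
      if c (x.1 - 1, x.2) (lf x q) = some (h (x.1 - 1, x.2)) ∧ c x (rt x q) = some (h x) ∧
        c' (x.1, x.2 - 1) (dn x q) = some (v (x.1, x.2 - 1)) ∧ c' x (up x q) = some (v x)
      then W x (σ x) q else 0) =
      ∑ Qf : Site L → Q, if (∀ x : Site L,
        c (x.1 - 1, x.2) (lf x (Qf x)) = some (h (x.1 - 1, x.2)) ∧ c x (rt x (Qf x)) = some (h x) ∧
        c' (x.1, x.2 - 1) (dn x (Qf x)) = some (v (x.1, x.2 - 1)) ∧ c' x (up x (Qf x)) = some (v x))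
      then ∏ x, W x (σ x) (Qf x) else 0 := by
    intro h v
    rw [Finset.prod_univ_sum, Fintype.piFinset_univ]
    refine Finset.sum_congr rfl fun Qf _ => ?_
    rw [Finset.prod_ite_zero]
    simp only [Finset.mem_univ, forall_true_left]
  simp only [h1]
  have h2 : ∀ (f : (Site L → Fin D) → (Site L → Fin D) → (Site L → Q) → ℂ),
      ∑ h : Site L → Fin D, ∑ v : Site L → Fin D, ∑ Qf : Site L → Q, f h v Qf =
        ∑ Qf : Site L → Q, ∑ h : Site L → Fin D, ∑ v : Site L → Fin D, f h v Qf := by
    intro f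
    rw [Finset.sum_congr rfl fun h _ => Finset.sum_comm, Finset.sum_comm]
  rw [h2, Finset.sum_filter]
  refine Finset.sum_congr rfl fun Qf _ => ?_
  -- the labels of a family
  choose h0 hh0 using fun x => hc1 x (rt x (Qf x)) (hrt x (Qf x))
  choose v0 hv0 using fun x => hc1' x (up x (Qf x)) (hup x (Qf x))
  have key : ∀ h v : Site L → Fin D, (∀ x : Site L,
        c (x.1 - 1, x.2) (lf x (Qf x)) = some (h (x.1 - 1, x.2)) ∧ c x (rt x (Qf x)) = some (h x) ∧
        c' (x.1, x.2 - 1) (dn x (Qf x)) = some (v (x.1, x.2 - 1)) ∧ c' x (up x (Qf x)) = some (v x)) ↔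
      h = h0 ∧ v = v0 ∧ ((∀ x : Site L, rt x (Qf x) = lf (x.1 + 1, x.2) (Qf (x.1 + 1, x.2))) ∧
      ∀ x : Site L, up x (Qf x) = dn (x.1, x.2 + 1) (Qf (x.1, x.2 + 1))) := by
    intro h v
    constructor
    · intro H
      have e1 : h = h0 := by
        funext x
        have a := (H x).2.1
        rw [hh0 x] at a
        exact (Option.some.inj a).symm
      have e2 : v = v0 := by
        funext x
        have a := (H x).2.2.2
        rw [hv0 x] at a
        exact (Option.some.inj a).symm
      refine ⟨e1, e2, fun x => ?_, fun x => ?_⟩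
      · have a := (H (x.1 + 1, x.2)).1
        simp only [add_sub_cancel_right] at a
        rw [e1, ← hh0] at a
        exact (hc2 _ _ (hrt x (Qf x)) _ a).symm
      · have a := (H (x.1, x.2 + 1)).2.2.1
        simp only [add_sub_cancel_right] at a
        rw [e2, ← hv0] at a
        exact (hc2' _ _ (hup x (Qf x)) _ a).symm
    · rintro ⟨rfl, rfl, H1, H2⟩ x
      refine ⟨?_, hh0 x, ?_, hv0 x⟩
      · have a := H1 (x.1 - 1, x.2)
        simp only [sub_add_cancel] at a
        rw [← hh0 (x.1 - 1, x.2)]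
        exact congrArg _ a.symm
      · have a := H2 (x.1, x.2 - 1)
        simp only [sub_add_cancel] at a
        rw [← hv0 (x.1, x.2 - 1)]
        exact congrArg _ a.symm
  simp only [key]
  by_cases hM : (∀ x : Site L, rt x (Qf x) = lf (x.1 + 1, x.2) (Qf (x.1 + 1, x.2))) ∧
      ∀ x : Site L, up x (Qf x) = dn (x.1, x.2 + 1) (Qf (x.1, x.2 + 1))
  · rw [if_pos hM, Finset.sum_eq_single h0, Finset.sum_eq_single v0]
    · rw [if_pos ⟨rfl, rfl, hM⟩]
    · intro v _ hv
      rw [if_neg]
      rintro ⟨-, h3, -⟩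
      exact hv h3
    · intro h
      exact absurd (Finset.mem_univ _) h
    · intro h _ hh
      refine Finset.sum_eq_zero fun v _ => ?_
      rw [if_neg]
      rintro ⟨h3, -, -⟩
      exact hh h3
    · intro h
      exact absurd (Finset.mem_univ _) h
  · rw [if_neg hM]
    symm
    refine Finset.sum_eq_zero fun h _ => Finset.sum_eq_zero fun v _ => ?_
    rw [if_neg]
    rintro ⟨-, -, h3⟩
    exact hM h3

end Pool.Agent.Q153.KT.LO
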